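import Pool.Agent.W550.B.Frob
import Pool.Agent.H914R2.LefB
import Pool.Agent.W537.OneCycleB

/-!
# The Lefschetz standard conjecture for direct summands of products of Tate varieties
-/

open CategoryTheory AlgebraicGeometry Finset TensorProduct Polynomial

universe u v w

namespace Pool.Agent.W550.B

open Pool.Agent.H914 Pool.Agent.H914.VarClass Pool.Agent.H914.VarClass.Obj
  Pool.Agent.H914.WeilCohomology

variable {k : Type u} [Field k] {𝒱 : VarClass k} {ops : CycleOps 𝒱}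
  {W : WeilCohomology.{u, v} ops} {X Y Q : 𝒱.Obj}

/-- The conjecture B for direct summands of varieties with frames. -/
theorem lefschetzB_of_isSummand {τ : W.K →+* W.K} {r : ℕ} {P : Fin r → 𝒱.Obj}
    (hP : ∀ j, HasFrame W τ (P j)) (hY : IsSummand W Y P) {D : Y.Cycles} (hD : Y.IsCyc 1 D)
    (hHL : HardLefschetz W Y D) : LefschetzB W Y D := by
  obtain ⟨u, v, h, hsum⟩ := hY
  choose a b h using h
  apply lefschetzB_of_inj hD hHL
  intro c _
  refine inj_of_frame hP (m := fun j => (a j : ℤ) - Y.dim) (U := fun j => W.corr (W.cl _ (u j)))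
    (V := fun j => W.corr (W.cl _ (v j))) ?_ ?_ hsum ?_ c
  · intro j
    exact KOp.gen (p := a j) (by ring) (h j).2.1
  · intro j
    have := (h j).1
    exact KOp.gen (p := b j) (by omega) (h j).2.2
  · intro j
    have h1 := (h j).1
    rw [← corr_compCyc W (h j).2.1]
    exact Pool.Agent.H447.rop_corr (p := (P j).dim) (by ring)
      (compCyc_mem (h j).2.2 (h j).2.1 (by omega))

/-- The motive of a dominated variety is a direct summand. -/
lemma isSummand_of_dominates {D : Y.Cycles} (hD : Y.IsCyc 1 D) (hHL : HardLefschetz W Y D)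
    (h : Dominates W Q Y) : IsSummand W Y (fun _ : Fin 1 => Q) := by
  obtain ⟨g, p, w, c, hw, hc, hpush⟩ := h
  by_cases h1 : (1 : W.H Y) = 0
  · refine ⟨fun _ => 0, fun _ => 0, fun _ =>
      ⟨Y.dim + Q.dim, 0, rfl, SmVar.IsCyc.zero _ _, SmVar.IsCyc.zero _ _⟩, fun x => ?_⟩
    rw [← mul_one x, h1, mul_zero]
    simp
  -- the codimension
  have hp : p + Y.dim = Q.dim := by
    have h2 := W.push_mem g (W.cl_mem hw)
    rw [hpush] at h2
    have h3 : c • (1 : W.H Y) ≠ 0 := smul_ne_zero hc h1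
    by_contra hne
    apply h3
    by_cases h0 : 0 ≤ ((2 * p : ℕ) : ℤ) + 2 * ((Y.dim : ℤ) - Q.dim)
    · obtain ⟨t, ht⟩ := Int.eq_ofNat_of_zero_le h0
      rw [ht, grZ_natCast] at h2
      have h4 : c • (1 : W.H Y) ∈ W.gr Y 0 := Submodule.smul_mem _ _ (W.one_mem Y)
      have h5 := proj_same (W.isInternal Y) h2
      rw [proj_ne (W.isInternal Y) h4 (by omega)] at h5
      exact h5.symm
    · rw [grZ_of_neg (by omega)] at h2
      exact (Submodule.mem_bot _).1 h2
  -- the coefficient is rational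
  obtain ⟨c', hc'⟩ : ∃ c' : ℚ, c = c' := by
    obtain ⟨b, ⟨z, hz, rfl⟩, hb⟩ := exists_top hD hHL h1
    have h2 := ops.push_mem g hw (q := 0) (by omega)
    have h3 := ops.mul_mem h2 hz
    rw [zero_add] at h3
    have h4 := W.tr_cl h3
    rw [W.cl_mul, W.cl_push, hpush, smul_mul_assoc, one_mul, map_smul, W.tr_cl hz,
      smul_eq_mul] at h4
    rw [W.tr_cl hz] at hb
    refine ⟨Y.V.degCycle (ops.mul (ops.push g w) z) / Y.V.degCycle z, ?_⟩
    rw [Rat.cast_div, ← h4, mul_div_cancel_right₀ _ hb]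
  have hc0 : c' ≠ 0 := by
    rintro rfl
    exact hc (by rw [hc', Rat.cast_zero])
  refine ⟨fun _ => ops.push (Obj.lift g (𝟙 Q)) Q.V.fundCycle,
    fun _ => c'⁻¹ • ops.push (Obj.lift (𝟙 Q) g) w, fun _ => ⟨Y.dim, Q.dim, rfl, ?_, ?_⟩,
    fun x => ?_⟩
  · apply ops.push_mem _ Q.V.fundCycle_mem
    change 0 + (Y.dim + Q.dim) = Y.dim + Q.dim
    omega
  · apply SmVar.IsCyc.smul
    apply ops.push_mem _ hw
    change p + (Q.dim + Y.dim) = Q.dim + Q.dim
    omega
  · rw [Fin.sum_univ_one]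
    have e1 : Obj.lift g (𝟙 Q) ≫ snd Y Q = 𝟙 Q := Obj.lift_snd _ _
    have e2 : Obj.lift g (𝟙 Q) ≫ fst Y Q = g := Obj.lift_fst _ _
    have e3 : Obj.lift (𝟙 Q) g ≫ snd Q Y = g := Obj.lift_snd _ _
    have e4 : Obj.lift (𝟙 Q) g ≫ fst Q Y = 𝟙 Q := Obj.lift_fst _ _
    rw [cycMap, cycMap, W.cl_smul, corr_smul, LinearMap.smul_apply, W.cl_push, W.cl_push, W.cl_fund, corr_apply,
      corr_apply, ← W.push_mul, ← W.push_comp, ← W.map_comp, e3, e4, ← W.push_mul, ← W.push_comp,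
      ← W.map_comp, e1, e2, W.push_id, W.map_id, one_mul, W.push_mul, hpush, smul_mul_assoc,
      one_mul, smul_smul, hc', Rat.cast_inv, inv_mul_cancel₀ (by exact_mod_cast hc0), one_smul]

/-- **The conjecture B for direct summands of products of Tate varieties.** -/
theorem lefschetzB_main [IsAlgClosed W.K] (τ : W.K →+* W.K) {S : Set 𝒱.Obj}
    (hS : ∀ P ∈ S, IsTateVariety W τ P) (hY : IsGenerated W S Y) {D : Y.Cycles}
    (hD : Y.IsCyc 1 D) (hHL : HardLefschetz W Y D) : LefschetzB W Y D := by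
  have hS' : ∀ P ∈ S, HasFrame W τ P := by
    intro P hP
    obtain ⟨D, h1, h2, h3, F, q, h4⟩ := hS P hP
    exact h4.hasFrame h1 h2 h3
  rcases hY with ⟨Q, hQ, hY⟩ | ⟨r, Q, hQ, hY⟩
  · exact lefschetzB_of_isSummand (fun _ => hasFrame_of_isProductOf hS' hQ)
      (isSummand_of_dominates hD hHL hY) hD hHL
  · exact lefschetzB_of_isSummand (fun j => hasFrame_of_isProductOf hS' (hQ j)) hY hD hHL

/-- The conjecture B gives algebraic inverses of the Lefschetz isomorphisms. -/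
lemma exists_inverts {D : Y.Cycles} (hD : Y.IsCyc 1 D) (hHL : HardLefschetz W Y D)
    (hB : LefschetzB W Y D) : ∀ i ≤ Y.dim, ∃ z, Pool.Agent.W537.InvertsLefschetz W Y D i z := by
  intro i hi
  obtain ⟨Φ, hΦ, hLam⟩ := lefschetzB_iff_rop.1 hB
  obtain ⟨F, hF, hFW⟩ := rop_opAlg.cast (rop_opAlg.pow hΦ (Y.dim - i))
    (show ((Y.dim - i : ℕ) : ℤ) * (-1) = -((Y.dim - i : ℕ) : ℤ) by ring)
  obtain ⟨z, hz, hz'⟩ := Pool.Agent.W537.cyc_of_realized hi hF
  refine ⟨z, (Pool.Agent.W537.inverts_iff hD W hi).2 ⟨hz, fun a ha => ?_⟩⟩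
  rw [← hz', hFW]
  exact lam_pow_L_pow (Pool.Agent.W537.LL_isHom hD W) W_hbd hHL hLam (by omega) ha

end Pool.Agent.W550.B
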