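import Pool.Agent.W550.B.Add
import Pool.Agent.W550.B.AddDefs

/-!
# The conjecture B for direct sums of twists: the main theorem
-/

open CategoryTheory AlgebraicGeometry Finset TensorProduct

universe u v w

namespace Pool.Agent.W550.B

open Pool.Agent.H914 Pool.Agent.H914.VarClass Pool.Agent.H914.VarClass.Obj
  Pool.Agent.H914.WeilCohomology

variable {k : Type u} [Field k] {𝒱 : VarClass k} {ops : CycleOps 𝒱}
  {W : WeilCohomology.{u, v} ops}

lemma lefschetzB_iff_injB {X : 𝒱.Obj} {D : X.Cycles} (hD : IsLefschetzDivisor W X D) :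
    LefschetzB W X D ↔ InjB W X :=
  ⟨fun h => inj_of_lefschetzB hD.1 hD.2 h, fun h => lefschetzB_of_inj hD.1 hD.2 h⟩

/-- The adjoint of a bijective matrix. -/
theorem exists_adjoint_matrix {r s : ℕ} {X : Fin r → 𝒱.Obj} {Y : Fin s → 𝒱.Obj} {m : Fin r → ℤ}
    {l : Fin s → ℤ} {G : ∀ (j : Fin r) (i : Fin s), W.H (Y i) →ₗ[W.K] W.H (X j)}
    (hG : ∀ j i, G j i ∈ KOp W (Y i) (X j) (l i - m j)) (hbij : Function.Bijective (tot G)) :
    ∃ Gt : ∀ (i : Fin s) (j : Fin r), W.H (X j) →ₗ[W.K] W.H (Y i),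
      (∀ i j, Gt i j ∈ KOp W (X j) (Y i) ((-m j - (X j).dim) - (-l i - (Y i).dim))) ∧
      Function.Bijective (tot Gt) := by
  classical
  choose Gt hGt hGt' using fun i j => KOp.exists_adjoint (hG j i)
  refine ⟨Gt, fun i j => KOp.cast (hGt i j) (by ring), ?_⟩
  have hinj : Function.Injective (tot Gt) := by
    rw [← LinearMap.ker_eq_bot, LinearMap.ker_eq_bot']
    intro a ha
    funext j'
    apply nondeg_right
    intro x
    obtain ⟨c', hc'⟩ := hbij.2 (LinearMap.single W.K (fun j => W.H (X j)) j' x)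
    have h1 : ∑ j, W.tr (X j) (tot G c' j * a j) = 0 := by
      have h2 : ∀ j, W.tr (X j) (tot G c' j * a j) =
          ∑ i, W.tr (Y i) (c' i * Gt i j (a j)) := by
        intro j
        rw [tot_apply, Finset.sum_mul, map_sum]
        exact Finset.sum_congr rfl (fun i _ => hGt' i j _ _)
      rw [Finset.sum_congr rfl (fun j _ => h2 j), Finset.sum_comm]
      apply Finset.sum_eq_zero
      intro i _
      rw [← map_sum, ← Finset.mul_sum]
      have h3 : ∑ j, Gt i j (a j) = 0 := by
        rw [← tot_apply Gt a i, ha]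
        rfl
      rw [h3, mul_zero, map_zero]
    rw [hc', Finset.sum_eq_single j'] at h1
    · simpa using h1
    · intro i _ hi
      simp [hi]
    · intro hi
      exact absurd (Finset.mem_univ _) hi
  refine ⟨hinj, ?_⟩
  have hrank : Module.finrank W.K (∀ i, W.H (Y i)) = Module.finrank W.K (∀ j, W.H (X j)) :=
    LinearEquiv.finrank_eq (LinearEquiv.ofBijective (tot G) hbij)
  exact (LinearMap.injective_iff_surjective_of_finrank_eq_finrank hrank.symm).1 hinj

/-- **Sums of twists.** If a matrix of algebraic correspondences, with coefficients, maps the direct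
sum of the `H(X j)(-a j)` bijectively to the direct sum of the `H(Y i)(-b i)`, then the conjecture B
for all `X j` is equivalent to the conjecture B for all `Y i`. -/
theorem sums_main {r s : ℕ} {X : Fin r → 𝒱.Obj} {a : Fin r → ℤ} {Y : Fin s → 𝒱.Obj}
    {b : Fin s → ℤ} {D : ∀ j, (X j).Cycles} {E : ∀ i, (Y i).Cycles}
    (hD : ∀ j, IsLefschetzDivisor W (X j) (D j)) (hE : ∀ i, IsLefschetzDivisor W (Y i) (E i))
    (h : MapsBijectively W X a Y b) :
    (∀ j, LefschetzB W (X j) (D j)) ↔ ∀ i, LefschetzB W (Y i) (E i) := by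
  obtain ⟨F, hF, hbij⟩ := h
  have hX : ∀ j, ∃ D, (X j).IsCyc 1 D ∧ HardLefschetz W (X j) D := fun j => ⟨D j, hD j⟩
  have hY : ∀ i, ∃ D, (Y i).IsCyc 1 D ∧ HardLefschetz W (Y i) D := fun i => ⟨E i, hE i⟩
  set G : ∀ (i : Fin s) (j : Fin r), W.H (X j) →ₗ[W.K] W.H (Y i) :=
    fun i j => W.corr (F j i) with hGdef
  have hG : ∀ i j, G i j ∈ KOp W (X j) (Y i) (a j - b i) := by
    intro i j
    rw [mem_KOp_iff]
    refine ⟨F j i, ?_, rfl⟩
    have := hF j i
    rwa [show ((X j).dim : ℤ) + (a j - b i) = (X j).dim + a j - b i by ring]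
  have hbij' : Function.Bijective (tot G) := hbij
  have e1 : (∀ j, LefschetzB W (X j) (D j)) ↔ ∀ j, InjB W (X j) :=
    forall_congr' (fun j => lefschetzB_iff_injB (hD j))
  have e2 : (∀ i, LefschetzB W (Y i) (E i)) ↔ ∀ i, InjB W (Y i) :=
    forall_congr' (fun i => lefschetzB_iff_injB (hE i))
  rw [e1, e2]
  constructor
  · exact fun hB => additivity hG hbij' hY hX hB
  · intro hB
    obtain ⟨Gt, hGt, hGtb⟩ := exists_adjoint_matrix hG hbij'
    exact additivity (m := fun j => -a j - (X j).dim) (l := fun i => -b i - (Y i).dim)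
      hGt hGtb hX hY hB

end Pool.Agent.W550.B
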