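import Pool.Agent.H914R2.DDefs

/-!
# Varieties with an endomorphism whose commutant is algebraic: definitions
-/

open CategoryTheory AlgebraicGeometry

universe u v

namespace Pool.Agent.W550.B

section Alg

variable {K : Type*} [Field K] {V : Type*} [AddCommGroup V] [Module K V]

/-- All eigenvalues `α` of `F` on the graded piece `gr i` satisfy `τ(α) α = q ^ i`. -/
def HasWeights (gr : ℕ → Submodule K V) (F : Module.End K V) (τ : K →+* K) (q : ℕ) : Prop :=
  ∀ (i : ℕ) (α : K) (v : V), v ∈ gr i → v ≠ 0 → F v = α • v → τ α * α = (q : K) ^ i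

/-- All operators which preserve the degrees and commute with `F` have the property `E`. -/
def CommutantIn (gr : ℕ → Submodule K V) (F : Module.End K V) (E : Module.End K V → Prop) :
    Prop :=
  ∀ Z : Module.End K V, (∀ i, ∀ a ∈ gr i, Z a ∈ gr i) → (∀ a, Z (F a) = F (Z a)) → E Z

end Alg

open Pool.Agent.H914 Pool.Agent.H914.VarClass Pool.Agent.H914.VarClass.Obj
  Pool.Agent.H914.WeilCohomology

variable {k : Type u} [Field k] {𝒱 : VarClass k} {ops : CycleOps 𝒱}

/-- The operator `F^*` on the cohomology of `X`. -/
noncomputable def pullOp (W : WeilCohomology.{u, v} ops) {X : 𝒱.Obj} (F : X ⟶ X) :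
    Module.End W.K (W.H X) := (W.map F).toLinearMap

/-- The operator `T` is a linear combination, with coefficients in the coefficient field `K` of the
cohomology, of algebraic correspondences of degree zero. -/
def IsAlgOp (W : WeilCohomology.{u, v} ops) (X : 𝒱.Obj) (T : Module.End W.K (W.H X)) : Prop :=
  ∃ γ ∈ spanCycles W (X.prod X) X.dim, W.corr γ = T

/-- The endomorphism `F` of `X` has the properties of the Frobenius endomorphism, over the finite
field with `q` elements, of a variety for which the Tate conjecture for the correspondences of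
degree zero of `X` with itself is known (for example a curve). The endomorphism `τ` of the
coefficient field plays the role of the complex conjugation on algebraic numbers: all eigenvalues
`α` of `F` on `H^i(X)` satisfy `τ(α) α = q ^ i`. Finally, all operators which preserve the degrees
and commute with `F` are combinations of algebraic correspondences with coefficients in `K`. -/
structure IsTateEndo (W : WeilCohomology.{u, v} ops) (τ : W.K →+* W.K) (X : 𝒱.Obj)
    (D : X.Cycles) (F : X ⟶ X) (q : ℕ) : Prop where
  one_lt : 1 < q
  scale : pullOp W F (W.cl X D) = (q : W.K) • W.cl X D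
  semisimple : (pullOp W F).IsSemisimple
  weights : HasWeights (W.gr X) (pullOp W F) τ q
  commutant : CommutantIn (W.gr X) (pullOp W F) (IsAlgOp W X)

/-- The variety `X` satisfies the conjecture B for a divisor `D` with hard Lefschetz, and has an
endomorphism with the properties of `IsTateEndo`. -/
def IsTateVariety (W : WeilCohomology.{u, v} ops) (τ : W.K →+* W.K) (X : 𝒱.Obj) : Prop :=
  ∃ D, X.IsCyc 1 D ∧ HardLefschetz W X D ∧ LefschetzB W X D ∧ ∃ F q, IsTateEndo W τ X D F q

/-- The action in cohomology of a cycle on the product. -/
noncomputable def cycMap (W : WeilCohomology.{u, v} ops) {X Y : 𝒱.Obj} (z : (X.prod Y).Cycles) :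
    W.H X →ₗ[W.K] W.H Y := W.corr (W.cl (X.prod Y) z)

/-- The cycles `u` on `X × Y` and `v` on `Y × X` are homogeneous, and the correspondences `u` and
`v` have opposite degrees. -/
def AreOpposite {X Y : 𝒱.Obj} (u : (X.prod Y).Cycles) (v : (Y.prod X).Cycles) : Prop :=
  ∃ a b : ℕ, a + b = X.dim + Y.dim ∧ (X.prod Y).IsCyc a u ∧ (Y.prod X).IsCyc b v

/-- The motive of `Y` (with respect to the cohomology `W`, and with rational coefficients) is a
direct summand of the direct sum of Tate twists of the motives of the varieties `P j`: there are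
algebraic correspondences `u j` from `Y` to `P j` and `v j` from `P j` to `Y`, of opposite degrees,
such that the sum of the compositions `v j ∘ u j` acts as the identity on `H(Y)`. -/
def IsSummand (W : WeilCohomology.{u, v} ops) (Y : 𝒱.Obj) {r : ℕ} (P : Fin r → 𝒱.Obj) : Prop :=
  ∃ (u : ∀ j, (Y.prod (P j)).Cycles) (v : ∀ j, ((P j).prod Y).Cycles),
    (∀ j, AreOpposite (u j) (v j)) ∧ ∀ x, ∑ j, cycMap W (v j) (cycMap W (u j) x) = x

/-- The variety `Y` is dominated by a product of varieties in `S`, or its motive is a direct summand
of a direct sum of Tate twists of motives of such products. -/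
def IsGenerated (W : WeilCohomology.{u, v} ops) (S : Set 𝒱.Obj) (Y : 𝒱.Obj) : Prop :=
  (∃ Q, IsProductOf S Q ∧ Dominates W Q Y) ∨
    ∃ (r : ℕ) (Q : Fin r → 𝒱.Obj), (∀ j, IsProductOf S (Q j)) ∧ IsSummand W Y Q

end Pool.Agent.W550.B
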