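import Pool.Agent.W550.B.Main
import Pool.Agent.W550.B.Defs
import Pool.Agent.H914R2.GFrob

/-!
# Frames from an endomorphism whose commutant is algebraic
-/

open CategoryTheory AlgebraicGeometry Finset TensorProduct Polynomial

universe u v w

namespace Pool.Agent.W550.B

open Pool.Agent.H914 Pool.Agent.H914.VarClass Pool.Agent.H914.VarClass.Obj
  Pool.Agent.H914.WeilCohomology

variable {k : Type u} [Field k] {𝒱 : VarClass k} {ops : CycleOps 𝒱}
  {W : WeilCohomology.{u, v} ops} {X Y Q : 𝒱.Obj}

lemma TRel.mem_left {τ : W.K →+* W.K} {φ ψ : Module.End W.K (W.H X)} (h : TRel W τ X φ ψ) :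
    φ ∈ KOp W X X 0 := by
  refine TRel.induction (p := fun φ _ => φ ∈ KOp W X X 0) ?_ ?_ ?_ h
  · exact Submodule.zero_mem _
  · intro a _ c _ ha hc
    exact Submodule.add_mem _ ha hc
  · intro c y hy
    exact Submodule.smul_mem _ _ (mem_KS_iff.1 (Submodule.subset_span hy))

/-- The involution exchanging the complementary degrees. -/
lemma exists_involution {D : X.Cycles} (hD : X.IsCyc 1 D) (hHL : HardLefschetz W X D)
    (hB : LefschetzB W X D) : ∃ J : Module.End W.K (W.H X), J * J = 1 ∧
      (∀ i : ℕ, ∃ F ∈ KOp W X X ((X.dim : ℤ) - i), ∀ a ∈ W.gr X i, J a = F a) ∧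
      (∀ i ≤ X.dim, ∀ a ∈ W.gr X i,
        J a = ((LinearMap.mulLeft W.K (W.cl X D)) ^ (X.dim - i)) a) := by
  obtain ⟨Φ, hΦ, hLam⟩ := lefschetzB_iff_rop.1 hB
  set L := LinearMap.mulLeft W.K (W.cl X D) with hL
  have hropL : ROp W X 1 L := rop_mulLeft hD
  have hLh : IsHom (W.gr X) 2 L := by simpa using rop_opAlg.hom hropL
  set G : ℕ → Module.End W.K (W.H X) := fun i =>
    if i ≤ X.dim then L ^ (X.dim - i) else Φ ^ (i - X.dim) with hG
  have hGmem : ∀ i : ℕ, G i ∈ KOp W X X ((X.dim : ℤ) - i) := by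
    intro i
    rw [← mem_KS_iff]
    by_cases hi : i ≤ X.dim
    · simp only [hG, if_pos hi]
      exact Submodule.subset_span (rop_opAlg.cast (rop_opAlg.pow hropL _) (by
        push_cast [hi]; ring))
    · simp only [hG, if_neg hi]
      exact Submodule.subset_span (rop_opAlg.cast (rop_opAlg.pow hΦ _) (by
        rw [Nat.cast_sub (by omega)]; ring))
  set J : Module.End W.K (W.H X) :=
    ∑ i ∈ range (2 * X.dim + 1), G i * proj (W.isInternal X) i with hJ
  have hJa : ∀ i, ∀ a ∈ W.gr X i, J a = G i a := by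
    intro i a ha
    by_cases hi : i ≤ 2 * X.dim
    · rw [hJ, LinearMap.sum_apply, Finset.sum_eq_single i]
      · rw [Module.End.mul_apply, proj_same _ ha]
      · intro j _ hj
        rw [Module.End.mul_apply, proj_ne _ ha (Ne.symm hj), map_zero]
      · intro h
        exact absurd (Finset.mem_range.2 (by omega)) h
    · rw [W.gr_eq_bot X i (by omega)] at ha
      rw [(Submodule.mem_bot _).1 ha, map_zero, map_zero]
  have hJle : ∀ i ≤ X.dim, ∀ a ∈ W.gr X i, J a = (L ^ (X.dim - i)) a := by
    intro i hi a ha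
    rw [hJa i a ha]
    simp only [hG, if_pos hi]
  have hLpow : ∀ i ≤ X.dim, ∀ a ∈ W.gr X i, (L ^ (X.dim - i)) a ∈ W.gr X (2 * X.dim - i) := by
    intro i hi a ha
    have h1 := (hLh.pow (X.dim - i)) i a (by rw [grZ_natCast]; exact ha)
    rwa [show (i : ℤ) + ((X.dim - i : ℕ) : ℤ) * 2 = ((2 * X.dim - i : ℕ) : ℤ) by omega,
      grZ_natCast] at h1
  have hinv : ∀ i ≤ X.dim, ∀ a ∈ W.gr X i, (Φ ^ (X.dim - i)) ((L ^ (X.dim - i)) a) = a := by
    intro i hi a ha
    exact lam_pow_L_pow hLh W_hbd hHL hLam (c := X.dim - i) (by omega)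
      (by rwa [show X.dim - (X.dim - i) = i by omega])
  refine ⟨J, ?_, fun i => ⟨G i, hGmem i, hJa i⟩, hJle⟩
  apply gr_ext (W.isInternal X)
  intro i a ha
  rw [Module.End.mul_apply, Module.End.one_apply]
  rcases lt_trichotomy i X.dim with hi | hi | hi
  · rw [hJle i hi.le a ha, hJa (2 * X.dim - i) _ (hLpow i hi.le a ha)]
    simp only [hG, if_neg (show ¬ 2 * X.dim - i ≤ X.dim by omega)]
    rw [show 2 * X.dim - i - X.dim = X.dim - i by omega, hinv i hi.le a ha]
  · rw [hJle i hi.le a ha, show X.dim - i = 0 by omega, pow_zero, Module.End.one_apply,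
      hJle i hi.le a ha, show X.dim - i = 0 by omega, pow_zero, Module.End.one_apply]
  · by_cases hi2 : i ≤ 2 * X.dim
    · obtain ⟨b, hb, hb'⟩ := (hHL (2 * X.dim - i) (by omega)).2 a (by
        rwa [show 2 * X.dim - (2 * X.dim - i) = i by omega])
      have h1 : J a = b := by
        rw [hJa i a ha]
        simp only [hG, if_neg (show ¬ i ≤ X.dim by omega)]
        rw [← hb', show i - X.dim = X.dim - (2 * X.dim - i) by omega]
        exact hinv _ (by omega) b hb
      rw [h1, hJle _ (by omega) b hb]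
      exact hb'
    · rw [W.gr_eq_bot X i (by omega)] at ha
      rw [(Submodule.mem_bot _).1 ha, map_zero, map_zero]

section Endo

variable {τ : W.K →+* W.K} {D : X.Cycles} {F : X ⟶ X} {q : ℕ}

namespace IsTateEndo

lemma scale' (h : IsTateEndo W τ X D F q) : W.map F (W.cl X D) = (q : W.K) • W.cl X D := h.scale

lemma semisimple' (h : IsTateEndo W τ X D F q) :
    Module.End.IsSemisimple (W.map F).toLinearMap := h.semisimple

lemma weights' (h : IsTateEndo W τ X D F q) (i : ℕ) (α : W.K) (v : W.H X) (hv : v ∈ W.gr X i)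
    (hv0 : v ≠ 0) (hα : W.map F v = α • v) : τ α * α = (q : W.K) ^ i := h.weights i α v hv hv0 hα

lemma commutant' (h : IsTateEndo W τ X D F q) (Z : Module.End W.K (W.H X))
    (hZ : ∀ i, ∀ a ∈ W.gr X i, Z a ∈ W.gr X i) (hZ' : ∀ a, Z (W.map F a) = W.map F (Z a)) :
    Z ∈ KOp W X X 0 := by
  obtain ⟨γ, hγ, hγ'⟩ := h.commutant Z hZ hZ'
  rw [mem_KOp_iff]
  exact ⟨γ, by rwa [add_zero], hγ'⟩

lemma q_ne (h : IsTateEndo W τ X D F q) : (q : W.K) ≠ 0 := by
  have := h.one_lt
  exact_mod_cast (show q ≠ 0 by omega)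

lemma q_inj (h : IsTateEndo W τ X D F q) {i j : ℕ} (hij : (q : W.K) ^ i = (q : W.K) ^ j) :
    i = j := by
  have h1 : q ^ i = q ^ j := by exact_mod_cast hij
  exact Nat.pow_right_injective h.one_lt h1

lemma map_gr (F : X ⟶ X) {i : ℕ} {a : W.H X} (ha : a ∈ W.gr X i) : W.map F a ∈ W.gr X i :=
  W.map_mem F ha

/-- The projections commute with the endomorphism. -/
lemma map_proj (F : X ⟶ X) (i : ℕ) (a : W.H X) :
    W.map F (proj (W.isInternal X) i a) = proj (W.isInternal X) i (W.map F a) := by
  refine gr_induction (W.isInternal X) (p := fun a =>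
    W.map F (proj (W.isInternal X) i a) = proj (W.isInternal X) i (W.map F a)) ?_ ?_ a
  · intro j a ha
    by_cases hij : j = i
    · subst hij
      rw [proj_same _ ha, proj_same _ (W.map_mem F ha)]
    · rw [proj_ne _ ha hij, proj_ne _ (W.map_mem F ha) hij, map_zero]
  · intro a b ha hb
    rw [map_add, map_add, ha, hb, map_add, map_add]

lemma sum_proj_apply (a : W.H X) :
    ∑ i ∈ range (2 * X.dim + 1), proj (W.isInternal X) i a = a := by
  have hsum := sum_proj (W.isInternal X) (N := 2 * X.dim + 1)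
    (fun i hi => W.gr_eq_bot X i (by omega))
  have h2 := congrArg (fun F => F a) hsum
  simpa only [LinearMap.sum_apply, Module.End.one_apply] using h2

/-- The degree of an eigenvalue. -/
lemma exists_degree (h : IsTateEndo W τ X D F q) {α : W.K} {v : W.H X} (hv : v ≠ 0)
    (hα : W.map F v = α • v) : ∃ i, τ α * α = (q : W.K) ^ i := by
  have h1 : ∃ i, proj (W.isInternal X) i v ≠ 0 := by
    by_contra hcon
    push Not at hcon
    apply hv
    rw [← sum_proj_apply v]
    exact Finset.sum_eq_zero (fun i _ => hcon i)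
  obtain ⟨i, hi⟩ := h1
  refine ⟨i, h.weights' i α _ (proj_mem _ i v) hi ?_⟩
  rw [map_proj, hα, map_smul]

/-- The eigenvectors are homogeneous. -/
lemma mem_gr (h : IsTateEndo W τ X D F q) {α : W.K} {v : W.H X} (hα : W.map F v = α • v) {i : ℕ}
    (hi : τ α * α = (q : W.K) ^ i) : v ∈ W.gr X i := by
  have h1 : ∀ j, j ≠ i → proj (W.isInternal X) j v = 0 := by
    intro j hj
    by_contra hne
    apply hj
    apply h.q_inj
    rw [← hi, h.weights' j α _ (proj_mem _ j v) hne]
    rw [map_proj, hα, map_smul]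
  rw [← sum_proj_apply v]
  refine Submodule.sum_mem _ (fun j _ => ?_)
  by_cases hj : j = i
  · subst hj
    exact proj_mem _ _ _
  · rw [h1 j hj]
    exact Submodule.zero_mem _

/-- The orientation is multiplied by the degree. -/
lemma tr_map (h : IsTateEndo W τ X D F q) (hD : X.IsCyc 1 D) (hHL : HardLefschetz W X D)
    (a : W.H X) : W.tr X (W.map F a) = (q : W.K) ^ X.dim * W.tr X a := by
  by_cases h1 : (1 : W.H X) = 0
  · have : ∀ b : W.H X, b = 0 := fun b => by rw [← mul_one b, h1, mul_zero]
    rw [this a, map_zero, map_zero, mul_zero]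
  have hpow : ∀ m, W.map F (((LinearMap.mulLeft W.K (W.cl X D)) ^ m) 1) =
      (q : W.K) ^ m • ((LinearMap.mulLeft W.K (W.cl X D)) ^ m) 1 := by
    intro m
    induction m with
    | zero => simp
    | succ m ih =>
      rw [pow_succ', Module.End.mul_apply, LinearMap.mulLeft_apply, map_mul (W.map F), ih,
        h.scale', smul_mul_smul_comm, ← pow_succ']
  have hLh : IsHom (W.gr X) 2 (LinearMap.mulLeft W.K (W.cl X D)) := by
    simpa using rop_opAlg.hom (rop_mulLeft (W := W) hD)
  have hmem : ((LinearMap.mulLeft W.K (W.cl X D)) ^ X.dim) 1 ∈ W.gr X (2 * X.dim) := by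
    have h2 := (hLh.pow X.dim) ((0 : ℕ) : ℤ) 1 (by rw [grZ_natCast]; exact W.one_mem X)
    rwa [show ((0 : ℕ) : ℤ) + (X.dim : ℤ) * 2 = ((2 * X.dim : ℕ) : ℤ) by push_cast; ring,
      grZ_natCast] at h2
  refine tr_map_of_top hmem ?_ (hpow X.dim) a
  intro h0
  have h2 := eq_zero_of_top hmem h0
  exact h1 ((hHL 0 (Nat.zero_le _)).1 1 (W.one_mem X) (by rw [Nat.sub_zero]; exact h2))

/-- Induction over eigenvectors. -/
lemma eig_induction [IsAlgClosed W.K] (h : IsTateEndo W τ X D F q) {p : W.H X → Prop}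
    (heig : ∀ (α : W.K) v, W.map F v = α • v → p v) (hadd : ∀ a b, p a → p b → p (a + b)) (a : W.H X) :
    p a := by
  have htop := h.semisimple'.iSup_eigenspace_eq_top
  have ha : a ∈ ⨆ μ : W.K, Module.End.eigenspace (W.map F).toLinearMap μ := by rw [htop]; trivial
  refine Submodule.iSup_induction _ (motive := p) ha (fun μ v hv => ?_) ?_ hadd
  · exact heig μ v (Module.End.mem_eigenspace_iff.1 hv)
  · exact heig 0 0 (by rw [map_zero, smul_zero])

/-- The pairing of eigenvectors. -/
lemma tr_eig (h : IsTateEndo W τ X D F q) (hD : X.IsCyc 1 D) (hHL : HardLefschetz W X D)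
    {α β : W.K} {v w : W.H X} (hv : W.map F v = α • v) (hw : W.map F w = β • w)
    (hne : W.tr X (v * w) ≠ 0) : α * β = (q : W.K) ^ X.dim := by
  have h1 := h.tr_map hD hHL (v * w)
  rw [map_mul (W.map F), hv, hw, smul_mul_smul_comm, map_smul, smul_eq_mul] at h1
  exact mul_right_cancel₀ hne h1

lemma map_L_pow (h : IsTateEndo W τ X D F q) (m : ℕ) (a : W.H X) :
    W.map F (((LinearMap.mulLeft W.K (W.cl X D)) ^ m) a) =
      (q : W.K) ^ m • ((LinearMap.mulLeft W.K (W.cl X D)) ^ m) (W.map F a) := by
  induction m with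
  | zero => simp
  | succ m ih =>
    rw [pow_succ', Module.End.mul_apply, LinearMap.mulLeft_apply, map_mul (W.map F), ih,
      h.scale', smul_mul_smul_comm, ← pow_succ', Module.End.mul_apply, LinearMap.mulLeft_apply]

lemma ne_zero (h : IsTateEndo W τ X D F q) {α : W.K} {i : ℕ} (hi : τ α * α = (q : W.K) ^ i) :
    α ≠ 0 := by
  rintro rfl
  rw [mul_zero] at hi
  exact pow_ne_zero _ h.q_ne hi.symm

/-- The endomorphism `τ` is an involution on the eigenvalues. -/
lemma tau_tau (h : IsTateEndo W τ X D F q) {α : W.K} {i : ℕ} (hi : τ α * α = (q : W.K) ^ i) :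
    τ (τ α) = α := by
  have h1 := congrArg τ hi
  rw [map_mul, map_pow, map_natCast, ← hi, mul_comm (τ α) α] at h1
  exact mul_right_cancel₀ (a := τ (τ α)) (by
    rw [Ne, map_eq_zero]; exact h.ne_zero hi) h1

/-- The conjugates of the eigenvalues are eigenvalues. -/
lemma exists_conj [IsAlgClosed W.K] (h : IsTateEndo W τ X D F q) (hD : X.IsCyc 1 D)
    (hHL : HardLefschetz W X D)
    {α : W.K} {v : W.H X} (hv : v ≠ 0) (hα : W.map F v = α • v) :
    ∃ w : W.H X, w ≠ 0 ∧ W.map F w = τ α • w := by
  obtain ⟨d, hd⟩ := h.exists_degree hv hα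
  have hα0 := h.ne_zero hd
  have hvd := h.mem_gr hα hd
  have hd2 : d ≤ 2 * X.dim := by
    by_contra hcon
    rw [W.gr_eq_bot X d (by omega)] at hvd
    exact hv ((Submodule.mem_bot _).1 hvd)
  -- a dual eigenvector
  obtain ⟨β, w, hw, hne⟩ : ∃ β w, W.map F w = β • w ∧ W.tr X (v * w) ≠ 0 := by
    by_contra hcon
    push Not at hcon
    apply hv
    apply W.nondeg
    intro b
    refine h.eig_induction (p := fun b => W.tr X (v * b) = 0) (fun α v hv => hcon α v hv) ?_ b
    intro a b ha hb
    rw [mul_add, map_add, ha, hb, add_zero]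
  have hβ := h.tr_eig hD hHL hα hw hne
  have hw0 : w ≠ 0 := by
    rintro rfl
    rw [mul_zero, map_zero] at hne
    exact hne rfl
  obtain ⟨e, he⟩ := h.exists_degree hw0 hw
  have hβ0 := h.ne_zero he
  have hde : d + e = 2 * X.dim := by
    apply h.q_inj
    rw [pow_add, ← hd, ← he, mul_mul_mul_comm, ← map_mul, hβ, map_pow, map_natCast, ← pow_add,
      two_mul]
  have hwe := h.mem_gr hw he
  have hτ : τ α * (q : W.K) ^ X.dim = (q : W.K) ^ d * β := by
    rw [← hβ, ← hd]; ring
  rcases le_total d X.dim with hdn | hdn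
  · obtain ⟨b, hb, hb'⟩ := (hHL d hdn).2 w (by rwa [show 2 * X.dim - d = e by omega])
    have hb0 : b ≠ 0 := by
      rintro rfl
      exact hw0 (by rw [← hb', map_zero])
    refine ⟨b, hb0, ?_⟩
    rw [← sub_eq_zero]
    apply (hHL d hdn).1 _ (Submodule.sub_mem _ (W.map_mem F hb) (Submodule.smul_mem _ _ hb))
    have h1 := h.map_L_pow (X.dim - d) b
    rw [hb', hw] at h1
    have h2 : ((LinearMap.mulLeft W.K (W.cl X D)) ^ (X.dim - d)) (W.map F b) =
        ((q : W.K) ^ (X.dim - d))⁻¹ • β • w := by
      rw [h1, inv_smul_smul₀ (pow_ne_zero _ h.q_ne)]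
    rw [map_sub, map_smul, hb', h2, smul_smul, ← sub_smul]
    have h3 : ((q : W.K) ^ (X.dim - d))⁻¹ * β - τ α = 0 := by
      have h4 : τ α * (q : W.K) ^ (X.dim - d) = β := by
        apply mul_left_cancel₀ (pow_ne_zero d h.q_ne)
        rw [← hτ]
        have : (q : W.K) ^ X.dim = (q : W.K) ^ d * (q : W.K) ^ (X.dim - d) := by
          rw [← pow_add]; congr 1; omega
        rw [this]; ring
      rw [← h4, mul_comm (τ α), inv_mul_cancel_left₀ (pow_ne_zero _ h.q_ne), sub_self]
    rw [h3, zero_smul]
  · have hen : e ≤ X.dim := by omega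
    refine ⟨((LinearMap.mulLeft W.K (W.cl X D)) ^ (X.dim - e)) w, ?_, ?_⟩
    · intro h0
      exact hw0 ((hHL e hen).1 w hwe h0)
    · rw [h.map_L_pow, hw, map_smul, smul_smul]
      congr 1
      apply mul_right_cancel₀ (pow_ne_zero X.dim h.q_ne)
      rw [hτ, mul_right_comm, ← pow_add]
      congr 2
      omega

/-- The operator given by a Lagrange polynomial, on eigenvectors. -/
lemma aeval_eig {α : W.K} {v : W.H X} (hα : W.map F v = α • v) (g : Polynomial W.K) :
    Polynomial.aeval (W.map F).toLinearMap g v = g.eval α • v := by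
  by_cases hv : v = 0
  · rw [hv, map_zero, smul_zero]
  · exact Module.End.aeval_apply_of_hasEigenvector
      ⟨Module.End.mem_eigenspace_iff.2 hα, hv⟩

end IsTateEndo

/-- **The frame of an endomorphism.** -/
theorem IsTateEndo.hasFrame [IsAlgClosed W.K] (h : IsTateEndo W τ X D F q) (hD : X.IsCyc 1 D)
    (hHL : HardLefschetz W X D) (hB : LefschetzB W X D) : HasFrame W τ X := by
  classical
  set f : Module.End W.K (W.H X) := (W.map F).toLinearMap with hf
  have hfa : ∀ a, f a = W.map F a := fun _ => rfl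
  have hrop : ROp W X 0 f := rop_map F
  -- the eigenvalues
  set S : Finset W.K := f.finite_hasEigenvalue.toFinset with hS
  have hSmem : ∀ {α}, α ∈ S ↔ ∃ v : W.H X, v ≠ 0 ∧ W.map F v = α • v := by
    intro α
    rw [hS, Set.Finite.mem_toFinset, Set.mem_ofPred_eq]
    constructor
    · intro hα
      obtain ⟨v, hv⟩ := hα.exists_hasEigenvector
      exact ⟨v, hv.2, Module.End.mem_eigenspace_iff.1 hv.1⟩
    · rintro ⟨v, hv, hα⟩
      exact Module.End.hasEigenvalue_of_hasEigenvector
        ⟨Module.End.mem_eigenspace_iff.2 hα, hv⟩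
  have hdeg : ∀ α : S, ∃ i, τ α * α = (q : W.K) ^ i := by
    intro α
    obtain ⟨v, hv, hα⟩ := hSmem.1 α.2
    exact h.exists_degree hv hα
  choose d hd using hdeg
  have hτS : ∀ α : S, τ α ∈ S := by
    intro α
    obtain ⟨v, hv, hα⟩ := hSmem.1 α.2
    exact hSmem.2 (h.exists_conj hD hHL hv hα)
  set s : S → S := fun α => ⟨τ α, hτS α⟩ with hs
  have hss : ∀ α, s (s α) = α := fun α => Subtype.ext (h.tau_tau (hd α))
  have hds : ∀ α, d (s α) = d α := by
    intro α
    apply h.q_inj
    rw [← hd, ← hd]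
    change τ (τ α) * τ α = _
    rw [h.tau_tau (hd α), mul_comm]
  -- the projectors
  set g : S → Polynomial W.K := fun α => Lagrange.basis S id α with hg
  have hgeval : ∀ (α β : S), (g α).eval β.1 = if β = α then 1 else 0 := by
    intro α β
    split_ifs with hαβ
    · subst hαβ
      exact Lagrange.eval_basis_self (v := id) (Set.injOn_id _) β.2
    · exact Lagrange.eval_basis_of_ne (v := id) (fun h' => hαβ (Subtype.ext h'.symm)) β.2
  set e : S → Module.End W.K (W.H X) := fun α => Polynomial.aeval f (g α) with he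
  have heig : ∀ (α β : S) {v : W.H X}, W.map F v = (β : W.K) • v →
      e α v = if β = α then v else 0 := by
    intro α β v hv
    simp only [he]
    rw [IsTateEndo.aeval_eig hv, hgeval]
    split_ifs
    · rw [one_smul]
    · rw [zero_smul]
  -- equality of operators
  have hext : ∀ {φ ψ : Module.End W.K (W.H X)},
      (∀ (β : S) v, W.map F v = (β : W.K) • v → φ v = ψ v) → φ = ψ := by
    intro φ ψ hφψ
    apply LinearMap.ext
    intro a
    refine h.eig_induction (p := fun a => φ a = ψ a) ?_ ?_ a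
    · intro α v hv
      by_cases hv0 : v = 0
      · rw [hv0, map_zero, map_zero]
      · exact hφψ ⟨α, hSmem.2 ⟨v, hv0, hv⟩⟩ v hv
    · intro a b ha hb
      rw [map_add, map_add, ha, hb]
  have hmul : ∀ α β, e α * e β = if α = β then e α else 0 := by
    intro α β
    apply hext
    intro γ v hv
    rw [Module.End.mul_apply, heig β γ hv]
    by_cases h1 : γ = β
    · subst h1
      rw [if_pos rfl, heig α γ hv]
      by_cases h2 : γ = α
      · subst h2
        rw [if_pos rfl, if_pos rfl, heig γ γ hv, if_pos rfl]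
      · rw [if_neg h2, if_neg (Ne.symm h2), LinearMap.zero_apply]
    · rw [if_neg h1, map_zero]
      split_ifs with h2
      · subst h2
        rw [heig α γ hv, if_neg h1]
      · rw [LinearMap.zero_apply]
  have hfe : ∀ α a, W.map F (e α a) = (α : W.K) • e α a := by
    intro α a
    have h1 : f * e α = (α : W.K) • e α := by
      apply hext
      intro β v hv
      rw [Module.End.mul_apply, LinearMap.smul_apply, heig α β hv]
      split_ifs with h2
      · rw [hfa, hv, h2]
      · rw [map_zero, smul_zero]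
    exact congrArg (fun φ => φ a) h1
  have hedeg : ∀ α a, e α a ∈ W.gr X (d α) := fun α a => h.mem_gr (hfe α a) (hd α)
  have htwist : ∀ α, TRel W τ X (e α) (e (s α)) := by
    intro α
    have h1 := TRel.aeval (τ := τ) hrop (g α)
    have h2 : Polynomial.aeval f ((g α).map τ) = e (s α) := by
      apply hext
      intro β v hv
      rw [hf, IsTateEndo.aeval_eig hv, heig (s α) β hv]
      have h3 : ((g α).map τ).eval (β : W.K) = if β = s α then 1 else 0 := by
        have h4 : (β : W.K) = τ (s β : W.K) := (h.tau_tau (hd β)).symm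
        rw [h4, Polynomial.eval_map_apply, hgeval]
        by_cases h5 : s β = α
        · rw [if_pos h5, if_pos (by rw [← h5, hss]), map_one]
        · rw [if_neg h5, if_neg (fun h6 => h5 (by rw [h6, hss])), map_zero]
      rw [h3]
      split_ifs
      · rw [one_smul]
      · rw [zero_smul]
    rw [h2] at h1
    exact h1
  have hemem : ∀ α, e α ∈ KOp W X X 0 := fun α => (htwist α).mem_left
  have heker : ∀ α {i : ℕ} {a : W.H X}, a ∈ W.gr X i → i ≠ d α → e α a = 0 := by
    intro α i a ha hi
    have h1 := hom0 (hemem α) ha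
    have h3 := proj_same (W.isInternal X) (hedeg α a)
    rw [proj_ne (W.isInternal X) h1 hi] at h3
    exact h3.symm
  -- the adjoints
  have hadj : ∀ α, ∃ ψ : Module.End W.K (W.H X),
      ∀ a b, W.tr X (e α a * b) = W.tr X (a * ψ b) := by
    intro α
    obtain ⟨ψ, -, hψ⟩ := KOp.exists_adjoint (hemem α)
    exact ⟨ψ, hψ⟩
  choose et het using hadj
  have heteig : ∀ α {μ : W.K} {w : W.H X}, μ ≠ 0 → W.map F w = μ • w →
      et α w = if (α : W.K) * μ = (q : W.K) ^ X.dim then w else 0 := by
    intro α μ w hμ hw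
    rw [← sub_eq_zero]
    apply nondeg_right
    intro a
    refine h.eig_induction (p := fun a => W.tr X (a * (et α w -
      if (α : W.K) * μ = (q : W.K) ^ X.dim then w else 0)) = 0) ?_ ?_ a
    · intro β v hv
      by_cases hv0 : v = 0
      · rw [hv0, zero_mul, map_zero]
      have hβS : β ∈ S := hSmem.2 ⟨v, hv0, hv⟩
      rw [mul_sub, map_sub, ← het, heig α ⟨β, hβS⟩ hv]
      by_cases hβα : (⟨β, hβS⟩ : S) = α
      · rw [if_pos hβα]
        by_cases hne : W.tr X (v * w) = 0
        · rw [hne]
          split_ifs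
          · rw [hne, sub_zero]
          · rw [mul_zero, map_zero, sub_zero]
        · have h1 := h.tr_eig hD hHL hv hw hne
          rw [if_pos (by rw [← hβα]; exact h1), sub_self]
      · rw [if_neg hβα, zero_mul, map_zero, zero_sub, neg_eq_zero]
        split_ifs with h1
        · by_contra hne
          have h2 := h.tr_eig hD hHL hv hw hne
          apply hβα
          apply Subtype.ext
          exact mul_right_cancel₀ hμ (h2.trans h1.symm)
        · rw [mul_zero, map_zero]
    · intro a b ha hb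
      rw [add_mul, map_add, ha, hb, add_zero]
  -- the involution
  obtain ⟨J, hJJ, hJmem, hJle⟩ := exists_involution hD hHL hB
  have hJJa : ∀ a, J (J a) = a := fun a => by rw [← Module.End.mul_apply, hJJ]; rfl
  have hJeig : ∀ (γ : S) {v : W.H X}, W.map F v = (γ : W.K) • v →
      W.map F (J v) = ((q : W.K) ^ X.dim * γ * ((q : W.K) ^ (d γ))⁻¹) • J v := by
    intro γ v hv
    have hvd := h.mem_gr hv (hd γ)
    rcases le_total (d γ) X.dim with hdn | hdn
    · rw [hJle _ hdn v hvd, h.map_L_pow, hv, map_smul, smul_smul]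
      congr 1
      have : (q : W.K) ^ X.dim = (q : W.K) ^ (X.dim - d γ) * (q : W.K) ^ (d γ) := by
        rw [← pow_add]; congr 1; omega
      rw [this]
      field_simp [pow_ne_zero (d γ) h.q_ne]
    · by_cases hd2 : d γ ≤ 2 * X.dim
      · have hd3 : 2 * X.dim - d γ ≤ X.dim := by omega
        obtain ⟨b, hb, hb'⟩ := (hHL (2 * X.dim - d γ) hd3).2 v (by
          rwa [show 2 * X.dim - (2 * X.dim - d γ) = d γ by omega])
        have h1 : J b = v := by rw [hJle _ hd3 b hb]; exact hb'
        have h2 : J v = b := by rw [← h1, hJJa]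
        rw [h2, ← sub_eq_zero]
        apply (hHL _ hd3).1 _ (Submodule.sub_mem _ (W.map_mem F hb) (Submodule.smul_mem _ _ hb))
        have h3 := h.map_L_pow (X.dim - (2 * X.dim - d γ)) b
        rw [hb', hv] at h3
        have h4 : ((LinearMap.mulLeft W.K (W.cl X D)) ^ (X.dim - (2 * X.dim - d γ)))
            (W.map F b) = ((q : W.K) ^ (X.dim - (2 * X.dim - d γ)))⁻¹ • (γ : W.K) • v := by
          rw [h3, inv_smul_smul₀ (pow_ne_zero _ h.q_ne)]
        rw [map_sub, map_smul, hb', h4, smul_smul, ← sub_smul]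
        have h5 : ((q : W.K) ^ (X.dim - (2 * X.dim - d γ)))⁻¹ * (γ : W.K) -
            (q : W.K) ^ X.dim * γ * ((q : W.K) ^ (d γ))⁻¹ = 0 := by
          have h6 : (q : W.K) ^ (d γ) =
              (q : W.K) ^ X.dim * (q : W.K) ^ (X.dim - (2 * X.dim - d γ)) := by
            rw [← pow_add]; congr 1; omega
          have h7 := pow_ne_zero X.dim h.q_ne
          have h8 := pow_ne_zero (X.dim - (2 * X.dim - d γ)) h.q_ne
          rw [h6]
          field_simp
          ring
        rw [h5, zero_smul]
      · rw [W.gr_eq_bot X _ (by omega)] at hvd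
        rw [(Submodule.mem_bot _).1 hvd, map_zero, map_zero, smul_zero]
  refine IsFrame.hasFrame (ι := S) (e := e) (et := et) (d := d) (s := s) (J := J) ?_
  refine ⟨?_, ?_, ?_, hedeg, ?_, htwist, ?_, hds, het, hJJ, ?_, ?_⟩
  · apply hext
    intro β v hv
    rw [LinearMap.sum_apply, Finset.sum_congr rfl (fun α _ => heig α β hv),
      Finset.sum_ite_eq, if_pos (Finset.mem_univ _), Module.End.one_apply]
  · intro α β hαβ
    rw [hmul, if_neg hαβ]
  · intro α
    rw [hmul, if_pos rfl]
  · -- the blocks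
    intro α A
    refine h.commutant' (e α * A * e α) ?_ ?_
    · intro i a ha
      by_cases hi : i = d α
      · rw [hi]
        exact hedeg α _
      · rw [Module.End.mul_apply, heker α ha hi, map_zero]
        exact Submodule.zero_mem _
    · intro a
      have h2 : ∀ a, e α (W.map F a) = (α : W.K) • e α a := by
        intro a
        have h3 : e α * f = (α : W.K) • e α := by
          apply hext
          intro β v hv
          rw [Module.End.mul_apply, hfa, hv, map_smul, LinearMap.smul_apply, heig α β hv]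
          split_ifs with h2
          · rw [h2]
          · rw [smul_zero, smul_zero]
        exact congrArg (fun φ => φ a) h3
      simp only [Module.End.mul_apply]
      rw [h2, hfe, map_smul, map_smul]
  · intro α
    exact ⟨s α, hss α⟩
  · intro α
    obtain ⟨G, hG, hG'⟩ := hJmem (d α)
    have h1 : J * e α = G * e α := by
      apply LinearMap.ext
      intro a
      rw [Module.End.mul_apply, Module.End.mul_apply, hG' _ (hedeg α a)]
    rw [h1]
    exact KOp.cast (KOp.comp hG (hemem α)) (by ring)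
  · intro α
    apply hext
    intro γ v hv
    have hγ0 := h.ne_zero (hd γ)
    have hμ : (q : W.K) ^ X.dim * γ * ((q : W.K) ^ (d γ))⁻¹ ≠ 0 :=
      mul_ne_zero (mul_ne_zero (pow_ne_zero _ h.q_ne) hγ0)
        (inv_ne_zero (pow_ne_zero _ h.q_ne))
    rw [Module.End.mul_apply, Module.End.mul_apply, heteig α hμ (hJeig γ hv), heig (s α) γ hv]
    have hiff : (γ = s α) ↔
        (α : W.K) * ((q : W.K) ^ X.dim * γ * ((q : W.K) ^ (d γ))⁻¹) = (q : W.K) ^ X.dim := by
      have h7 := pow_ne_zero X.dim h.q_ne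
      have h8 := pow_ne_zero (d γ) h.q_ne
      have h9 : (α : W.K) * ((q : W.K) ^ X.dim * γ * ((q : W.K) ^ (d γ))⁻¹) =
          (q : W.K) ^ X.dim ↔ (α : W.K) * γ = (q : W.K) ^ (d γ) := by
        constructor
        · intro h10
          field_simp at h10
          linear_combination h10
        · intro h10
          field_simp
          linear_combination h10
      rw [h9]
      constructor
      · rintro rfl
        rw [hds, ← hd α, mul_comm]
      · intro h10
        rw [← hd γ] at h10
        have h11 : (α : W.K) = τ γ := mul_right_cancel₀ hγ0 h10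
        apply Subtype.ext
        change (γ : W.K) = τ α
        rw [h11, h.tau_tau (hd γ)]
    by_cases hc : γ = s α
    · rw [if_pos hc, if_pos (hiff.1 hc)]
    · rw [if_neg hc, if_neg (fun h' => hc (hiff.2 h')), map_zero]

end Endo

end Pool.Agent.W550.B
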