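import Pool.Agent.W550.B.Frame
import Pool.Agent.H914R2.LefB

/-!
# Direct summands of varieties with frames
-/

open CategoryTheory AlgebraicGeometry Finset TensorProduct

universe u v w

namespace Pool.Agent.W550.B

open Pool.Agent.H914 Pool.Agent.H914.VarClass Pool.Agent.H914.VarClass.Obj
  Pool.Agent.H914.WeilCohomology

variable {k : Type u} [Field k] {𝒱 : VarClass k} {ops : CycleOps 𝒱}
  {W : WeilCohomology.{u, v} ops} {X Y Q : 𝒱.Obj}

/-- Adjoint operators have the same trace. -/
lemma trace_adj {φ ψ : Module.End W.K (W.H X)}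
    (h : ∀ a b, W.tr X (φ a * b) = W.tr X (a * ψ b)) :
    LinearMap.trace W.K (W.H X) ψ = LinearMap.trace W.K (W.H X) φ := by
  set B : W.H X →ₗ[W.K] Module.Dual W.K (W.H X) :=
    ((LinearMap.mul W.K (W.H X)).compr₂ (W.tr X)).flip with hB
  have hBa : ∀ a b, B b a = W.tr X (a * b) := fun a b => rfl
  have hinj : Function.Injective B := by
    rw [← LinearMap.ker_eq_bot, LinearMap.ker_eq_bot']
    intro b hb
    apply nondeg_right
    intro a
    rw [← hBa, hb, LinearMap.zero_apply]
  set E : W.H X ≃ₗ[W.K] Module.Dual W.K (W.H X) :=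
    LinearEquiv.ofInjectiveOfFinrankEq B hinj (Subspace.dual_finrank_eq).symm with hE
  have hEa : ∀ b, E b = B b := fun b => rfl
  have h1 : ψ = E.symm.conj (Module.Dual.transpose φ) := by
    apply LinearMap.ext
    intro b
    rw [LinearEquiv.conj_apply_apply, LinearEquiv.symm_symm, LinearEquiv.eq_symm_apply, hEa, hEa]
    apply LinearMap.ext
    intro a
    rw [hBa, Module.Dual.transpose_apply, LinearMap.comp_apply, hBa, h]
  rw [h1, LinearMap.trace_conj', LinearMap.trace_transpose']

namespace IsBlk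

variable {K : Type*} [Field K] {V : Type*} [AddCommGroup V] [Module K V]
  {A : Subalgebra K (Module.End K V)} {ι : Type*} [Fintype ι] {e : ι → Module.End K V}

/-- The traces of the blocks of the idempotents are integers. -/
lemma exists_nat [CharZero K] [Module.Finite K V] (h : IsBlk A e) {q : Module.End K V}
    (hqA : q ∈ A) (hq : q * q = q) (a : ι) :
    ∃ n : ℕ, LinearMap.trace K V (Zp A e a * q) = n := by
  have h1 : LinearMap.trace K V (Zp A e a * q) = LinearMap.trace K V (bl A e a q) := by
    rw [bl, LinearMap.trace_mul_comm K (Zp A e a * q), ← mul_assoc, h.Zp_idem]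
  have h2 : bl A e a q * bl A e a q = bl A e a q := by rw [← h.bl_mul a hqA hqA, hq]
  rw [h1, trace_idem h2]
  exact ⟨_, rfl⟩

end IsBlk

namespace IsFrame

variable {τ : W.K →+* W.K} {ι : Type*} [Fintype ι]
    {e et : ι → Module.End W.K (W.H Q)} {d : ι → ℕ} {s : ι → ι} {J : Module.End W.K (W.H Q)}

/-- The blocks vanish in the wrong degrees. -/
lemma e_eq_zero (h : IsFrame W τ Q e et d s J) (i : ι) {t : ℤ} {a : W.H Q}
    (ha : a ∈ grZ (W.gr Q) t) (ht : (d i : ℤ) ≠ t) : e i a = 0 := by
  by_cases h0 : 0 ≤ t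
  · lift t to ℕ using h0
    rw [grZ_natCast] at ha
    have h1 := hom0 (h.mem i) ha
    have h2 := h.deg i a
    have h3 := proj_same (W.isInternal Q) h1
    rw [proj_ne (W.isInternal Q) h2 (by omega)] at h3
    exact h3.symm
  · rw [grZ_of_neg (by omega)] at ha
    rw [(Submodule.mem_bot _).1 ha, map_zero]

/-- The traces of the blocks of a rational operator and of the twisted block. -/
lemma trace_twist (h : IsFrame W τ Q e et d s J) {p : Module.End W.K (W.H Q)}
    (hp : ROp W Q 0 p) (i : ι) :
    τ (LinearMap.trace W.K (W.H Q) (e i * p)) = LinearMap.trace W.K (W.H Q) (e (s i) * p) := by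
  have hpar : ∀ i, par (W.isInternal Q) * e i = (-1 : W.K) ^ (d i) • e i := by
    intro i
    apply LinearMap.ext
    intro a
    rw [Module.End.mul_apply, par, scal_apply _ _ (h.deg i a), LinearMap.smul_apply]
  have h1 := (h.twist i).trace hp
  rw [← mul_assoc, ← mul_assoc, hpar, hpar, h.sdeg, smul_mul_assoc, smul_mul_assoc,
    (LinearMap.trace W.K (W.H Q)).map_smul, (LinearMap.trace W.K (W.H Q)).map_smul,
    smul_eq_mul, smul_eq_mul, map_mul, map_pow, map_neg, map_one] at h1
  exact mul_left_cancel₀ (pow_ne_zero _ (by norm_num)) h1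

/-- The operator `J` on the elements of degree `t`. -/
lemma exists_J (h : IsFrame W τ Q e et d s J) (t : ℤ) :
    ∃ F ∈ KOp W Q Q ((Q.dim : ℤ) - t), ∀ a ∈ grZ (W.gr Q) t, F a = J a := by
  classical
  refine ⟨∑ j ∈ univ.filter (fun j => (d j : ℤ) = t), J * e j, ?_, ?_⟩
  · refine Submodule.sum_mem _ (fun j hj => ?_)
    exact KOp.cast (h.Jmem j) (by rw [(Finset.mem_filter.1 hj).2])
  · intro a ha
    have h1 : J a = ∑ j, (J * e j) a := by
      rw [← LinearMap.sum_apply, ← Finset.mul_sum, h.sum, mul_one]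
    rw [h1, LinearMap.sum_apply, Finset.sum_filter]
    apply Finset.sum_congr rfl
    intro j _
    split_ifs with hj
    · rfl
    · rw [Module.End.mul_apply, h.e_eq_zero j ha hj, map_zero]

/-- Conjugates by the involutions of the correspondences. -/
lemma conj_mem {τ : W.K →+* W.K} {ι : Type*} [Fintype ι] {ι' : Type*} [Fintype ι']
    {e et : ι → Module.End W.K (W.H Q)} {d : ι → ℕ} {s : ι → ι} {J : Module.End W.K (W.H Q)}
    {e' et' : ι' → Module.End W.K (W.H X)} {d' : ι' → ℕ} {s' : ι' → ι'}
    {J' : Module.End W.K (W.H X)}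
    (h : IsFrame W τ Q e et d s J) (h' : IsFrame W τ X e' et' d' s' J') {δ : ℤ}
    {φ : W.H X →ₗ[W.K] W.H Q} (hφ : φ ∈ KOp W X Q δ) :
    J ∘ₗ φ ∘ₗ J' ∈ KOp W X Q ((Q.dim : ℤ) - X.dim - δ) := by
  have h1 : J ∘ₗ φ ∘ₗ J' = ∑ i, ∑ j, (J * e j) ∘ₗ φ ∘ₗ (J' * e' i) := by
    apply LinearMap.ext
    intro a
    simp only [LinearMap.sum_apply, LinearMap.comp_apply, Module.End.mul_apply]
    have e1 : ∀ b, ∑ j, J (e j b) = J b := by
      intro b
      rw [← map_sum, ← LinearMap.sum_apply, h.sum, Module.End.one_apply]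
    simp only [e1]
    rw [← map_sum, ← map_sum, ← map_sum, ← LinearMap.sum_apply, h'.sum, Module.End.one_apply]
  rw [h1]
  refine Submodule.sum_mem _ (fun i _ => Submodule.sum_mem _ (fun j _ => ?_))
  by_cases hj : (d j : ℤ) = 2 * X.dim - d' i + 2 * δ
  · exact KOp.cast (KOp.comp (h.Jmem j) (KOp.comp hφ (h'.Jmem i))) (by omega)
  · have h3 : (J * e j) ∘ₗ φ ∘ₗ (J' * e' i) = 0 := by
      apply LinearMap.ext
      intro a
      have ha : (e' i a) ∈ grZ (W.gr X) (d' i) := by rw [grZ_natCast]; exact h'.deg i a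
      have h4 := KOp.isHom (h'.Jmem i) _ _ ha
      have h5 : (J' * e' i) (e' i a) = (J' * e' i) a := by
        rw [Module.End.mul_apply, ← Module.End.mul_apply (e' i) (e' i), h'.idem]
        rfl
      rw [h5] at h4
      have h6 := KOp.isHom hφ _ _ h4
      simp only [LinearMap.comp_apply, Module.End.mul_apply, LinearMap.zero_apply] at h6 ⊢
      rw [h.e_eq_zero j h6 (by omega), map_zero]
    rw [h3]
    exact Submodule.zero_mem _

end IsFrame

section Sum

variable {r : ℕ} {P : Fin r → 𝒱.Obj}

/-- The entries of an operator on the direct sum of the cohomology of several varieties. -/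
noncomputable def entry (φ : Module.End W.K (∀ j, W.H (P j))) (l j : Fin r) :
    W.H (P j) →ₗ[W.K] W.H (P l) :=
  LinearMap.proj l ∘ₗ φ ∘ₗ LinearMap.single W.K (fun j => W.H (P j)) j

lemma entry_mul (φ ψ : Module.End W.K (∀ j, W.H (P j))) (l j : Fin r) :
    entry (φ * ψ) l j = ∑ i, entry φ l i ∘ₗ entry ψ i j := by
  have key : ∀ b : (∀ j, W.H (P j)),
      ∑ i, LinearMap.single W.K (fun j => W.H (P j)) i (b i) = b := by
    intro b
    funext i
    rw [Finset.sum_apply, Finset.sum_eq_single i]
    · simp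
    · intro l _ hl
      simp [Ne.symm hl]
    · intro hi
      exact absurd (Finset.mem_univ _) hi
  apply LinearMap.ext
  intro a
  simp only [entry, LinearMap.sum_apply, LinearMap.comp_apply, Module.End.mul_apply,
    LinearMap.proj_apply]
  rw [← Finset.sum_apply, ← map_sum, key]

/-- The algebra of the matrices of algebraic correspondences, with coefficients. -/
noncomputable def mAlg (W : WeilCohomology.{u, v} ops) (P : Fin r → 𝒱.Obj) (m : Fin r → ℤ) :
    Subalgebra W.K (Module.End W.K (∀ j, W.H (P j))) where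
  carrier := {φ | ∀ l j, entry φ l j ∈ KOp W (P j) (P l) (m l - m j)}
  mul_mem' := fun {a b} ha hb l j => by
    rw [entry_mul]
    exact Submodule.sum_mem _ (fun i _ => KOp.cast (KOp.comp (ha l i) (hb i j)) (by ring))
  add_mem' := fun {a b} ha hb l j => by
    have : entry (a + b) l j = entry a l j + entry b l j := by
      apply LinearMap.ext
      intro x
      simp [entry]
    rw [this]
    exact Submodule.add_mem _ (ha l j) (hb l j)
  algebraMap_mem' := fun c l j => by
    by_cases hlj : l = j
    · subst hlj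
      have : entry (algebraMap W.K (Module.End W.K (∀ j, W.H (P j))) c) l l =
          c • LinearMap.id := by
        apply LinearMap.ext
        intro x
        simp [entry]
      rw [this, sub_self]
      exact Submodule.smul_mem _ _ (KOp.id _)
    · have : entry (algebraMap W.K (Module.End W.K (∀ j, W.H (P j))) c) l j = 0 := by
        apply LinearMap.ext
        intro x
        simp [entry, hlj]
      rw [this]
      exact Submodule.zero_mem _

lemma mem_mAlg {m : Fin r → ℤ} {φ : Module.End W.K (∀ j, W.H (P j))} :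
    φ ∈ mAlg W P m ↔ ∀ l j, entry φ l j ∈ KOp W (P j) (P l) (m l - m j) := Iff.rfl

/-- The operator on the direct sum given by an operator on one summand. -/
noncomputable def diagOp (j : Fin r) (y : Module.End W.K (W.H (P j))) :
    Module.End W.K (∀ j, W.H (P j)) :=
  LinearMap.single W.K (fun j => W.H (P j)) j ∘ₗ y ∘ₗ LinearMap.proj j

lemma diagOp_mul (j : Fin r) (y z : Module.End W.K (W.H (P j))) :
    diagOp j y * diagOp j z = diagOp j (y * z) := by
  apply LinearMap.ext
  intro a
  simp [diagOp]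

lemma diagOp_mul_ne {j l : Fin r} (hjl : j ≠ l) (y : Module.End W.K (W.H (P j)))
    (z : Module.End W.K (W.H (P l))) : diagOp j y * diagOp l z = 0 := by
  apply LinearMap.ext
  intro a
  simp [diagOp, hjl]

/-- The trace of the product with an operator on one summand. -/
lemma trace_diagOp (j : Fin r) (y : Module.End W.K (W.H (P j)))
    (φ : Module.End W.K (∀ j, W.H (P j))) :
    LinearMap.trace W.K _ (diagOp j y * φ) = LinearMap.trace W.K _ (y * entry φ j j) := by
  have e1 : diagOp j y * φ = LinearMap.single W.K (fun j => W.H (P j)) j ∘ₗ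
      (y ∘ₗ LinearMap.proj j ∘ₗ φ) := rfl
  have e2 : y * entry φ j j = (y ∘ₗ LinearMap.proj j ∘ₗ φ) ∘ₗ
      LinearMap.single W.K (fun j => W.H (P j)) j := rfl
  rw [e1, e2]
  exact LinearMap.trace_comp_comm' _ _

end Sum

/-- **Direct summands.** If the motive of `Y` is a direct summand of a direct sum of twists of
motives of varieties `P j` with frames, then there are algebraic correspondences, with
coefficients, which are injective on the cohomology in the complementary degrees. -/
theorem inj_of_frame {τ : W.K →+* W.K} {r : ℕ} {P : Fin r → 𝒱.Obj}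
    (hP : ∀ j, HasFrame W τ (P j)) {m : Fin r → ℤ}
    {U : ∀ j, W.H Y →ₗ[W.K] W.H (P j)} {V : ∀ j, W.H (P j) →ₗ[W.K] W.H Y}
    (hU : ∀ j, U j ∈ KOp W Y (P j) (m j)) (hV : ∀ j, V j ∈ KOp W (P j) Y (-m j))
    (hVU : ∀ x, ∑ j, V j (U j x) = x) (hp : ∀ j, ROp W (P j) 0 (U j ∘ₗ V j)) (c : ℕ) :
    ∃ ν ∈ KOp W Y Y (-c), ∀ a ∈ W.gr Y (Y.dim + c), ν a = 0 → a = 0 := by
  classical
  choose ι fι e0 et0 d s J h using hP
  -- the direct sum
  set VV : (∀ j, W.H (P j)) →ₗ[W.K] W.H Y := ∑ j, V j ∘ₗ LinearMap.proj j with hVV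
  set UU : W.H Y →ₗ[W.K] (∀ j, W.H (P j)) := LinearMap.pi U with hUU
  have hVVa : ∀ a, VV a = ∑ j, V j (a j) := fun a => by
    rw [hVV, LinearMap.sum_apply]; rfl
  have hVU' : ∀ x, VV (UU x) = x := fun x => by rw [hVVa]; exact hVU x
  have hVVs : ∀ j a, VV (LinearMap.single W.K (fun j => W.H (P j)) j a) = V j a := by
    intro j a
    rw [hVVa, Finset.sum_eq_single j]
    · simp
    · intro l _ hl
      simp [hl]
    · intro hj
      exact absurd (Finset.mem_univ _) hj
  choose Ut hUt hUt' using fun j => KOp.exists_adjoint (hU j)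
  choose Vt hVt hVt' using fun j => KOp.exists_adjoint (hV j)
  set UT : (∀ j, W.H (P j)) →ₗ[W.K] W.H Y := ∑ j, Ut j ∘ₗ LinearMap.proj j with hUT
  set VT : W.H Y →ₗ[W.K] (∀ j, W.H (P j)) := LinearMap.pi Vt with hVT
  have hUTa : ∀ a, UT a = ∑ j, Ut j (a j) := fun a => by
    rw [hUT, LinearMap.sum_apply]; rfl
  have hUTs : ∀ j a, UT (LinearMap.single W.K (fun j => W.H (P j)) j a) = Ut j a := by
    intro j a
    rw [hUTa, Finset.sum_eq_single j]
    · simp
    · intro l _ hl
      simp [hl]
    · intro hj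
      exact absurd (Finset.mem_univ _) hj
  have hUVT : ∀ x, UT (VT x) = x := by
    intro x
    rw [← sub_eq_zero]
    apply nondeg_right
    intro b
    rw [mul_sub, map_sub, hUTa, Finset.mul_sum, map_sum]
    have e1 : ∀ j, W.tr Y (b * Ut j (VT x j)) = W.tr Y (V j (U j b) * x) := by
      intro j
      rw [← hUt', hVt']
      rfl
    rw [Finset.sum_congr rfl (fun j _ => e1 j), ← map_sum, ← Finset.sum_mul, hVU, sub_self]
  set JJ : Module.End W.K (∀ j, W.H (P j)) := ∑ j, diagOp j (J j) with hJJ
  have hJJa : ∀ a j, JJ a j = J j (a j) := by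
    intro a j
    rw [hJJ, LinearMap.sum_apply, Finset.sum_apply, Finset.sum_eq_single j]
    · simp [diagOp]
    · intro l _ hl
      simp [diagOp, Ne.symm hl]
    · intro hj
      exact absurd (Finset.mem_univ _) hj
  have hJ2 : ∀ j a, J j (J j a) = a := by
    intro j a
    rw [← Module.End.mul_apply, (h j).inv]
    rfl
  have hJJ2 : ∀ a, JJ (JJ a) = a := by
    intro a
    funext j
    rw [hJJa, hJJa, hJ2]
  have hJJs : ∀ j a, JJ (LinearMap.single W.K (fun j => W.H (P j)) j a) =
      LinearMap.single W.K (fun j => W.H (P j)) j (J j a) := by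
    intro j a
    funext l
    rw [hJJa]
    by_cases hl : l = j
    · subst hl
      simp
    · simp [hl]
  -- the idempotents
  set p : Module.End W.K (∀ j, W.H (P j)) := UU ∘ₗ VV with hpdef
  have hpa : ∀ a, p a = UU (VV a) := fun a => rfl
  have hpp : p * p = p := by
    apply LinearMap.ext
    intro a
    rw [Module.End.mul_apply, hpa, hpa, hVU']
  have hpent : ∀ l j, entry p l j = U l ∘ₗ V j := by
    intro l j
    apply LinearMap.ext
    intro a
    change UU (VV (LinearMap.single W.K (fun j => W.H (P j)) j a)) l = _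
    rw [hVVs]
    rfl
  have hpA : p ∈ mAlg W P m := by
    intro l j
    rw [hpent]
    exact KOp.cast (KOp.comp (hU l) (hV j)) (by ring)
  set q : Module.End W.K (∀ j, W.H (P j)) := JJ ∘ₗ VT ∘ₗ UT ∘ₗ JJ with hqdef
  have hqa : ∀ a, q a = JJ (VT (UT (JJ a))) := fun a => rfl
  have hqq : q * q = q := by
    apply LinearMap.ext
    intro a
    rw [Module.End.mul_apply, hqa, hqa, hJJ2, hUVT]
  have hqent : ∀ l j, entry q l j = J l ∘ₗ (Vt l ∘ₗ Ut j) ∘ₗ J j := by
    intro l j
    apply LinearMap.ext
    intro a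
    change JJ (VT (UT (JJ (LinearMap.single W.K (fun j => W.H (P j)) j a)))) l = _
    rw [hJJs, hUTs, hJJa]
    rfl
  have hqA : q ∈ mAlg W P m := by
    intro l j
    rw [hqent]
    exact KOp.cast ((h l).conj_mem (h j) (KOp.comp (hVt l) (hUt j))) (by ring)
  -- the blocks
  set E : (Σ j, ι j) → Module.End W.K (∀ j, W.H (P j)) := fun i => diagOp i.1 (e0 i.1 i.2)
    with hE
  have hblk : IsBlk (mAlg W P m) E := by
    refine ⟨?_, ?_, ?_, ?_⟩
    · rw [Fintype.sum_sigma]
      apply LinearMap.ext
      intro a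
      funext j
      simp only [hE, LinearMap.sum_apply, Finset.sum_apply, Module.End.one_apply]
      rw [Finset.sum_eq_single j]
      · have h1 : ∀ i, (diagOp j (e0 j i)) a j = e0 j i (a j) := by
          intro i
          simp [diagOp]
        rw [Finset.sum_congr rfl (fun i _ => h1 i), ← LinearMap.sum_apply, (h j).sum,
          Module.End.one_apply]
      · intro l _ hl
        apply Finset.sum_eq_zero
        intro i _
        simp [diagOp, Ne.symm hl]
      · intro hj
        exact absurd (Finset.mem_univ _) hj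
    · rintro ⟨j, i⟩ ⟨l, i'⟩ hne
      simp only [hE]
      by_cases hjl : j = l
      · subst hjl
        rw [diagOp_mul, (h j).orth i i' (fun h' => hne (by rw [h']))]
        apply LinearMap.ext
        intro a
        simp [diagOp]
      · exact diagOp_mul_ne hjl _ _
    · rintro ⟨j, i⟩
      simp only [hE]
      rw [diagOp_mul, (h j).idem]
    · rintro ⟨j, i⟩ φ l l'
      have h1 : E ⟨j, i⟩ * φ * E ⟨j, i⟩ = diagOp j (e0 j i * entry φ j j * e0 j i) := rfl
      rw [h1]
      by_cases hl : l = j
      · subst hl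
        by_cases hl' : l' = l
        · subst hl'
          have h2 : ∀ y : Module.End W.K (W.H (P l')), entry (diagOp l' y) l' l' = y := by
            intro y
            apply LinearMap.ext
            intro a
            simp [entry, diagOp]
          rw [h2, sub_self]
          exact (h l').full i _
        · have h2 : ∀ y : Module.End W.K (W.H (P l)), entry (diagOp l y) l l' = 0 := by
            intro y
            apply LinearMap.ext
            intro a
            simp [entry, diagOp, Ne.symm hl']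
          rw [h2]
          exact Submodule.zero_mem _
      · have h2 : ∀ y : Module.End W.K (W.H (P j)), entry (diagOp j y) l l' = 0 := by
          intro y
          apply LinearMap.ext
          intro a
          simp [entry, diagOp, hl]
        rw [h2]
        exact Submodule.zero_mem _
  -- the traces of the blocks
  have htr : ∀ j (i : ι j), LinearMap.trace W.K _ (E ⟨j, s j i⟩ * q) =
      LinearMap.trace W.K _ (E ⟨j, i⟩ * p) := by
    intro j i
    simp only [hE]
    rw [trace_diagOp, trace_diagOp, hqent, hpent]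
    have e1 : LinearMap.trace W.K _ (e0 j (s j i) * (J j ∘ₗ (Vt j ∘ₗ Ut j) ∘ₗ J j)) =
        LinearMap.trace W.K _ (et0 j i * (Vt j ∘ₗ Ut j)) := by
      calc LinearMap.trace W.K _ (e0 j (s j i) * (J j ∘ₗ (Vt j ∘ₗ Ut j) ∘ₗ J j))
          = LinearMap.trace W.K _ ((e0 j (s j i) * J j * (Vt j ∘ₗ Ut j)) * J j) := rfl
        _ = LinearMap.trace W.K _ (J j * (e0 j (s j i) * J j * (Vt j ∘ₗ Ut j))) :=
            LinearMap.trace_mul_comm _ _ _
        _ = LinearMap.trace W.K _ ((J j * e0 j (s j i)) * J j * (Vt j ∘ₗ Ut j)) := by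
            simp only [mul_assoc]
        _ = LinearMap.trace W.K _ (et0 j i * (J j * J j) * (Vt j ∘ₗ Ut j)) := by
            rw [(h j).comm]; simp only [mul_assoc]
        _ = LinearMap.trace W.K _ (et0 j i * (Vt j ∘ₗ Ut j)) := by rw [(h j).inv, mul_one]
    rw [e1]
    have e2 : LinearMap.trace W.K _ (et0 j i * (Vt j ∘ₗ Ut j)) =
        LinearMap.trace W.K _ ((U j ∘ₗ V j) * e0 j i) := by
      apply trace_adj
      intro a b
      rw [Module.End.mul_apply, Module.End.mul_apply, LinearMap.comp_apply, LinearMap.comp_apply,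
        hUt', hVt', (h j).adj]
    rw [e2, LinearMap.trace_mul_comm]
  have htw : ∀ j (i : ι j), τ (LinearMap.trace W.K _ (E ⟨j, i⟩ * p)) =
      LinearMap.trace W.K _ (E ⟨j, s j i⟩ * p) := by
    intro j i
    simp only [hE]
    rw [trace_diagOp, trace_diagOp, hpent]
    exact (h j).trace_twist (hp j) i
  have htrZ : ∀ a, LinearMap.trace W.K _ (IsBlk.Zp (mAlg W P m) E a * p) =
      LinearMap.trace W.K _ (IsBlk.Zp (mAlg W P m) E a * q) := by
    intro a
    obtain ⟨n, hn⟩ := hblk.exists_nat (q := q) hqA hqq a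
    set S : (Σ j, ι j) → (Σ j, ι j) := fun i => ⟨i.1, s i.1 i.2⟩ with hS
    have hsurj : Function.Surjective S := by
      rintro ⟨j, i⟩
      obtain ⟨i', rfl⟩ := (h j).surj i
      exact ⟨⟨j, i'⟩, rfl⟩
    have hbij : Function.Bijective S := Finite.surjective_iff_bijective.1 hsurj
    set sp : (Σ j, ι j) ≃ (Σ j, ι j) := Equiv.ofBijective S hbij with hsp
    have e1 : ∀ x : Module.End W.K (∀ j, W.H (P j)),
        LinearMap.trace W.K _ (IsBlk.Zp (mAlg W P m) E a * x) =
        ∑ i, if IsBlk.Eqv (mAlg W P m) E a (S i) then LinearMap.trace W.K _ (E (S i) * x)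
          else 0 := by
      intro x
      rw [IsBlk.Zp, Finset.sum_mul, map_sum, Finset.sum_filter]
      exact (Equiv.sum_comp sp (fun i => if IsBlk.Eqv (mAlg W P m) E a i then
        LinearMap.trace W.K _ (E i * x) else 0)).symm
    have e2 : τ (LinearMap.trace W.K _ (IsBlk.Zp (mAlg W P m) E a * q)) =
        LinearMap.trace W.K _ (IsBlk.Zp (mAlg W P m) E a * p) := by
      rw [e1, e1, map_sum]
      apply Finset.sum_congr rfl
      rintro ⟨j, i⟩ _
      split_ifs
      · rw [htr, htw]
      · rw [map_zero]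
    rw [← e2, hn, map_natCast]
  obtain ⟨x, hx, hxinj⟩ := hblk.exists_inj (p := p) (q := q) hpA hqA hpp hqq htrZ
  -- the correspondence
  have hF := fun j => (h j).exists_J (((Y.dim + c : ℕ) : ℤ) + 2 * (-m j + (P j).dim - Y.dim))
  choose F hF hF' using hF
  refine ⟨∑ l, ∑ j, V l ∘ₗ entry x l j ∘ₗ F j ∘ₗ Vt j, ?_, ?_⟩
  · refine Submodule.sum_mem _ (fun l _ => Submodule.sum_mem _ (fun j _ => ?_))
    refine KOp.cast (KOp.comp (hV l) (KOp.comp (hx l j) (KOp.comp (hF j) (hVt j)))) ?_
    push_cast
    ring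
  · intro w hw h0
    have h1 := fun j => KOp.isHom (hVt j) ((Y.dim + c : ℕ) : ℤ) w (by rw [grZ_natCast]; exact hw)
    have h2 : (∑ l, ∑ j, V l ∘ₗ entry x l j ∘ₗ F j ∘ₗ Vt j) w = VV (x (JJ (VT w))) := by
      rw [hVVa]
      simp only [LinearMap.sum_apply, LinearMap.comp_apply]
      apply Finset.sum_congr rfl
      intro l _
      rw [← map_sum]
      congr 1
      have h3 : JJ (VT w) = ∑ j, LinearMap.single W.K (fun j => W.H (P j)) j (J j (Vt j w)) := by
        funext l
        rw [hJJa, Finset.sum_apply, Finset.sum_eq_single l]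
        · simp [hVT]
        · intro b _ hb
          simp [Ne.symm hb]
        · intro hj
          exact absurd (Finset.mem_univ _) hj
      rw [h3, map_sum, Finset.sum_apply]
      apply Finset.sum_congr rfl
      intro j _
      rw [hF' j _ (h1 j)]
      rfl
    rw [h2] at h0
    have h3 : q (JJ (VT w)) = JJ (VT w) := by
      rw [hqa, hJJ2, hUVT]
    have h4 : JJ (VT w) = 0 := hxinj _ h3 (by rw [hpa, h0, map_zero])
    have h5 : VT w = 0 := by rw [← hJJ2 (VT w), h4, map_zero]
    rw [← hUVT w, h5, map_zero]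

end Pool.Agent.W550.B
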